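import Pool.Agent.Lib_helper58.KT.Zero
import Pool.Agent.Lib_helper58.KT.Frob

/-!
# Orders of the roots of unity among few numbers with power sums in a cyclotomic field
-/

set_option autoImplicit false

namespace Pool.Agent.EFF

open NumberField Topology Polynomial
open Pool.Agent.TT Pool.Agent.TB Pool.Agent.TF Pool.Agent.RF Pool.Agent.TU Pool.Agent.KT

theorem effa_core {p m n d : ℕ} (hp : p.Prime) (hm : 0 < m) (hn : 0 < n) (hpm : ¬ p ∣ m)
    (hd : d < p) {z : Qbar} (hz : IsPrimitiveRoot z (m * p ^ n)) (L : IntermediateField ℚ Qbar)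
    (hL : L = IntermediateField.adjoin ℚ {z}) {f : L[X]} (hf0 : f ≠ 0) (hfd : f.natDegree ≤ d)
    {x : Qbar} (hx : f.eval₂ (algebraMap L Qbar) x = 0) {M : ℕ} (hM : 0 < M) (hxM : x ^ M = 1) :
    ∃ M' : ℕ, 0 < M' ∧ ¬ p ∣ M' ∧ M'.totient ≤ d * m.totient ∧ x ^ (M' * p ^ n) = 1 := by
  have hx' : IsOfFinOrder x := isOfFinOrder_iff_pow_eq_one.mpr ⟨M, hM, hxM⟩
  have hord : orderOf x ≠ 0 := hx'.orderOf_pos.ne'
  obtain ⟨b, N, hpN, hbN⟩ := Nat.exists_eq_pow_mul_and_not_dvd hord p hp.ne_one
  have hN : 0 < N := by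
    rcases Nat.eq_zero_or_pos N with h | h
    · subst h
      simp at hpN
    · exact h
  have hpn : 0 < p ^ n := pow_pos hp.pos n
  have hm0 : 0 < m * p ^ n := Nat.mul_pos hm hpn
  have hprim : IsPrimitiveRoot x (orderOf x) := IsPrimitiveRoot.orderOf x
  have hu := hz.pow_mul_pow_lcm hprim hm0.ne' hord
  set T : ℕ := (m * p ^ n).lcm (orderOf x) with hT
  set u : Qbar := z ^ ((m * p ^ n) / (m * p ^ n).factorizationLCMLeft (orderOf x)) *
    x ^ (orderOf x / (m * p ^ n).factorizationLCMRight (orderOf x)) with hudef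
  have hTpos : 0 < T := Nat.lcm_pos hm0 (Nat.pos_of_ne_zero hord)
  have hfr : ∀ {w : Qbar} {m : ℕ}, 0 < m → IsPrimitiveRoot w m →
      Module.finrank ℚ (IntermediateField.adjoin ℚ {w}) = m.totient := by
    intro w m hm hw
    rw [IntermediateField.adjoin.finrank (hw.isIntegral hm).tower_top,
      ← Polynomial.cyclotomic_eq_minpoly_rat hw hm, Polynomial.natDegree_cyclotomic]
  have hxL : IsIntegral L x := by
    apply IsAlgebraic.isIntegral
    exact ⟨f, hf0, hx⟩
  set L' : IntermediateField L Qbar := IntermediateField.adjoin L {x} with hL'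
  have h1 : Module.finrank L L' ≤ d := by
    rw [hL', IntermediateField.adjoin.finrank hxL]
    refine le_trans ?_ hfd
    apply Polynomial.natDegree_le_of_dvd _ hf0
    exact minpoly.dvd L x hx
  have hfinL : FiniteDimensional ℚ L := by
    rw [hL]
    exact IntermediateField.adjoin.finiteDimensional (hz.isIntegral hm0).tower_top
  have hfinL' : FiniteDimensional L L' := IntermediateField.adjoin.finiteDimensional hxL
  have hfin : FiniteDimensional ℚ L' := FiniteDimensional.trans ℚ L L'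
  have h2 : Module.finrank ℚ L * Module.finrank L L' = Module.finrank ℚ L' :=
    Module.finrank_mul_finrank ℚ L L'
  have hzL : z ∈ L := by
    rw [hL]
    exact IntermediateField.mem_adjoin_simple_self ℚ z
  have hfrL : Module.finrank ℚ L = (m * p ^ n).totient := by
    rw [hL]
    exact hfr hm0 hz
  have hzL' : z ∈ L' := by
    have := L'.algebraMap_mem ⟨z, hzL⟩
    exact this
  have hxL' : x ∈ L' := IntermediateField.mem_adjoin_simple_self L x
  have hle : IntermediateField.adjoin ℚ {u} ≤ L'.restrictScalars ℚ := by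
    rw [IntermediateField.adjoin_simple_le_iff]
    exact mul_mem (pow_mem hzL' _) (pow_mem hxL' _)
  have h3 : Module.finrank ℚ (IntermediateField.adjoin ℚ {u}) ≤ Module.finrank ℚ L' := by
    have : FiniteDimensional ℚ (L'.restrictScalars ℚ) := hfin
    exact Submodule.finrank_mono (R := ℚ)
      (s := (IntermediateField.adjoin ℚ {u}).toSubalgebra.toSubmodule)
      (t := (L'.restrictScalars ℚ).toSubalgebra.toSubmodule) hle
  have hcop : ∀ {a c : ℕ}, ¬ p ∣ a → Nat.Coprime a (p ^ c) := by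
    intro a c ha
    exact (Nat.Coprime.pow_left c ((Nat.Prime.coprime_iff_not_dvd hp).mpr ha)).symm
  rw [hfr hTpos hu, ← h2, hfrL, Nat.totient_mul (hcop hpm)] at h3
  have hTle : ∀ {a c : ℕ}, ¬ p ∣ a → a ∣ T → p ^ c ∣ T →
      a.totient * (p ^ c).totient ≤ d * (m.totient * (p ^ n).totient) := by
    intro a c ha h4 h5
    rw [← Nat.totient_mul (hcop ha)]
    have h6 : a * p ^ c ∣ T := (hcop ha).mul_dvd_of_dvd_of_dvd h4 h5
    refine (Nat.le_of_dvd (Nat.totient_pos.mpr hTpos) (Nat.totient_dvd_of_dvd h6)).trans ?_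
    refine h3.trans ?_
    rw [mul_comm]
    exact Nat.mul_le_mul_right _ h1
  have hφn : 0 < (p ^ n).totient := Nat.totient_pos.mpr hpn
  have hφm : 0 < m.totient := Nat.totient_pos.mpr hm
  have hleft : m * p ^ n ∣ T := Nat.dvd_lcm_left _ _
  have hright : orderOf x ∣ T := Nat.dvd_lcm_right _ _
  have hbn : b ≤ n := by
    by_contra hcon
    push Not at hcon
    have h4 := hTle (a := m) (c := b) hpm ((Dvd.intro _ rfl).trans hleft)
      ((by rw [hbN]; exact Dvd.intro _ rfl : p ^ b ∣ orderOf x).trans hright)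
    have h5 : (p ^ b).totient = p ^ (b - n) * (p ^ n).totient := by
      rw [Nat.totient_prime_pow hp (by omega), Nat.totient_prime_pow hp hn, ← mul_assoc, ← pow_add]
      congr 2
      omega
    have h6 : p ≤ p ^ (b - n) := by
      calc p = p ^ 1 := (pow_one p).symm
        _ ≤ p ^ (b - n) := Nat.pow_le_pow_right hp.pos (by omega)
    have h7 : m.totient * (p ^ n).totient * p ≤ m.totient * (p ^ n).totient * d := by
      calc m.totient * (p ^ n).totient * p ≤ m.totient * (p ^ n).totient * p ^ (b - n) :=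
            Nat.mul_le_mul_left _ h6
        _ = m.totient * (p ^ b).totient := by rw [h5]; ring
        _ ≤ d * (m.totient * (p ^ n).totient) := h4
        _ = _ := mul_comm _ _
    have h8 := Nat.le_of_mul_le_mul_left h7 (Nat.mul_pos hφm hφn)
    omega
  refine ⟨N, hN, hpN, ?_, ?_⟩
  · have h4 := hTle (a := N) (c := n) hpN
      ((by rw [hbN]; exact Dvd.intro_left _ rfl : N ∣ orderOf x).trans hright)
      ((Dvd.intro_left _ rfl).trans hleft)
    rw [← mul_assoc] at h4
    exact Nat.le_of_mul_le_mul_right h4 hφn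
  · have h4 : orderOf x ∣ N * p ^ n := by
      rw [hbN, mul_comm]
      exact Nat.mul_dvd_mul_left N (pow_dvd_pow p hbn)
    exact orderOf_dvd_iff_pow_eq_one.mp h4

/-- BLOCK A (orders of the roots of unity). -/
theorem block_A' {p m a n d : ℕ} (hp : p.Prime) (hpm : ¬ p ∣ m) (han : a ≤ n) (hn : 0 < n)
    (hd : d < p) {zm w : Qbar} (hzm : zm ^ (m * p ^ a) = 1) (hw : IsPrimitiveRoot w (p ^ n))
    (x : Fin d → Qbar)
    (hx : ∀ L : IntermediateField ℚ Qbar, zm ∈ L → w ∈ L → ∀ r, ∑ i, x i ^ r ∈ L)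
    {M : ℕ} (hM : 0 < M) {i : Fin d} (hi : x i ^ M = 1) :
    ∃ M' : ℕ, 0 < M' ∧ ¬ p ∣ M' ∧ M'.totient ≤ d * m.totient ∧ x i ^ (M' * p ^ n) = 1 := by
  have hm : 0 < m := Nat.pos_of_ne_zero fun h => hpm (by rw [h]; exact dvd_zero p)
  have hpn : 0 < p ^ n := pow_pos hp.pos n
  have hm0 : 0 < m * p ^ n := Nat.mul_pos hm hpn
  obtain ⟨z, hz⟩ := exists_prim hm0
  have : NeZero (m * p ^ n) := ⟨hm0.ne'⟩
  set L : IntermediateField ℚ Qbar := IntermediateField.adjoin ℚ {z} with hL
  have hzL : z ∈ L := IntermediateField.mem_adjoin_simple_self ℚ z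
  have hmem : ∀ y : Qbar, y ^ (m * p ^ n) = 1 → y ∈ L := by
    intro y hy
    obtain ⟨i, -, hi⟩ := hz.eq_pow_of_pow_eq_one (ξ := y) hy
    rw [← hi]
    exact pow_mem hzL i
  have hzmL : zm ∈ L := by
    apply hmem
    obtain ⟨t, ht⟩ := Nat.mul_dvd_mul_left m (pow_dvd_pow p han)
    rw [ht, pow_mul, hzm, one_pow]
  have hwL : w ∈ L := by
    apply hmem
    rw [mul_comm, pow_mul, hw.pow_eq_one, one_pow]
  let sL : ℕ → L := fun r => ⟨∑ i, x i ^ r, hx L hzmL hwL r⟩
  have hf : (npoly d sL).map (algebraMap L Qbar) = ∏ i, (X - C (x i)) := by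
    rw [npoly_map]
    exact npoly_family x _ fun r _ => rfl
  have hfne : npoly d sL ≠ 0 := by
    intro h0
    rw [h0, Polynomial.map_zero] at hf
    exact (Polynomial.monic_prod_of_monic Finset.univ (fun i => X - C (x i))
      fun i _ => Polynomial.monic_X_sub_C _).ne_zero hf.symm
  exact effa_core hp hm hn hpm hd hz L hL hfne
    (npoly_natDegree_le d sL) (x := x i) (by
      rw [← Polynomial.eval_map, hf, Polynomial.eval_prod]
      apply Finset.prod_eq_zero (Finset.mem_univ i)
      rw [Polynomial.eval_sub, Polynomial.eval_X, Polynomial.eval_C, sub_self]) hM hi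

end Pool.Agent.EFF
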