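import Pool.Agent.Lib_helper19.EFF.Defs
import Pool.Agent.Lib_helper19.EFF.A
import Pool.Agent.Lib_helper19.EFF.NB
import Pool.Agent.Lib_helper16.KP.FrobAll
import Pool.Agent.Lib_helper58.KT.Final
import Pool.Agent.Lib_helper76.IT.Int

/-!
# Effective towers: the general form of the theorem
-/

set_option autoImplicit false

namespace Pool.Agent.EFF

open NumberField Topology Polynomial
open Pool.Agent.TT Pool.Agent.TB Pool.Agent.TF Pool.Agent.RF Pool.Agent.TBL Pool.Agent.TU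
open Pool.Agent.KT Pool.Agent.KP Pool.Agent.IT

/-- The coefficients of the generating polynomial lie in every subring that contains the root of
unity. -/
theorem effc_theta {K : Type} [Field K] {F : Type} [Field F] [Fintype F] {m : ℕ} {ζ : 𝓞 K} {s : ℕ}
    (S : Fin s → TowerStratum K) (a : F → ℕ) {A : Type} [CommRing A] (f : 𝓞 K →+* A) (R : Subring A)
    (h : f ζ ∈ R) (φ : 𝓞 K →+* F) : ∃ T : R[X], T.map R.subtype = theta f m ζ φ a S := by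
  classical
  have hmem : theta f m ζ φ a S ∈ (Polynomial.mapRingHom R.subtype).range := by
    unfold theta
    have hC : ∀ x ∈ R, (C x : A[X]) ∈ (Polynomial.mapRingHom R.subtype).range := by
      intro x hx
      exact ⟨C ⟨x, hx⟩, by rw [Polynomial.coe_mapRingHom, Polynomial.map_C]; rfl⟩
    apply sum_mem
    intro i _
    apply mul_mem (hC _ (intCast_mem R _))
    apply sum_mem
    intro x _
    split_ifs
    · exact zero_mem _
    · apply mul_mem (hC _ (sym_mem f R h _))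
      apply pow_mem
      exact ⟨X, by rw [Polynomial.coe_mapRingHom, Polynomial.map_X]⟩
  obtain ⟨T, hT⟩ := hmem
  exact ⟨T, hT⟩

theorem effc_pow_le {p : ℕ} [hp : Fact p.Prime] {x : ℂ_[p]} (hx : ‖x‖ = 1) (i : ℕ) :
    ‖x ^ i - 1‖ ≤ ‖x - 1‖ := by
  rw [← mul_geom_sum, norm_mul]
  have h3 : ‖∑ j ∈ Finset.range i, x ^ j‖ ≤ 1 := by
    apply IsUltrametricDist.norm_sum_le_of_forall_le_of_nonneg zero_le_one
    intro j _
    rw [norm_pow, hx, one_pow]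
  calc ‖x - 1‖ * ‖∑ j ∈ Finset.range i, x ^ j‖ ≤ ‖x - 1‖ * 1 :=
        mul_le_mul_of_nonneg_left h3 (norm_nonneg _)
    _ = _ := mul_one _

/-- The distance to `1` of a primitive root of unity of order `p ^ n` does not decrease in `n`. -/
theorem effc_far {p : ℕ} [hp : Fact p.Prime] {k n : ℕ} (hkn : k ≤ n) {w₀ w : ℂ_[p]}
    (hw₀ : w₀ ^ p ^ k = 1) (hw : IsPrimitiveRoot w (p ^ n)) :
    ‖w₀ - 1‖ ≤ ‖w - 1‖ := by
  have hpn : 0 < p ^ n := pow_pos hp.out.pos n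
  have hne : NeZero (p ^ n) := ⟨hpn.ne'⟩
  have hwn : ‖w‖ = 1 := tu_norm_one hpn hw.pow_eq_one
  obtain ⟨i, -, hi⟩ := hw.eq_pow_of_pow_eq_one (ξ := w₀) (by
    obtain ⟨t, ht⟩ := pow_dvd_pow p hkn
    rw [ht, pow_mul, hw₀, one_pow])
  rw [← hi]
  exact effc_pow_le hwn i

/-- The prime-to-`p` part and the `p`-part of a root of unity. -/
theorem effc_split {Ω : Type} [Field Ω] {p M n : ℕ} (hp : p.Prime) (hM : 0 < M) (hpM : ¬ p ∣ M)
    {w x : Ω} (hw : IsPrimitiveRoot w (p ^ n)) (hx : x ^ (M * p ^ n) = 1) :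
    ∃ (ξ : Ω) (u : ℕ), ξ ^ M = 1 ∧ x = ξ * w ^ u := by
  have hpn : 0 < p ^ n := pow_pos hp.pos n
  have hne : NeZero (p ^ n) := ⟨hpn.ne'⟩
  have hx0 : x ≠ 0 := by
    intro h0
    rw [h0, zero_pow (Nat.mul_pos hM hpn).ne'] at hx
    exact zero_ne_one hx
  have hcop : Nat.Coprime M (p ^ n) :=
    (((Nat.Prime.coprime_iff_not_dvd hp).mpr hpM).symm).pow_right n
  have hgcd := Nat.gcd_eq_gcd_ab M (p ^ n)
  rw [Nat.Coprime.gcd_eq_one hcop] at hgcd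
  set a : ℤ := Nat.gcdA M (p ^ n) with ha
  set b : ℤ := Nat.gcdB M (p ^ n) with hb
  have hxz : x ^ ((M : ℤ) * ((p ^ n : ℕ) : ℤ)) = 1 := by
    have : ((M : ℤ) * ((p ^ n : ℕ) : ℤ)) = ((M * p ^ n : ℕ) : ℤ) := by push_cast; ring
    rw [this, zpow_natCast, hx]
  have h1 : x = x ^ (((p ^ n : ℕ) : ℤ) * b) * x ^ ((M : ℤ) * a) := by
    rw [← zpow_add₀ hx0]
    have h2 : ((p ^ n : ℕ) : ℤ) * b + (M : ℤ) * a = 1 := by
      rw [add_comm]
      have h3 : ((1 : ℕ) : ℤ) = (M : ℤ) * a + ((p ^ n : ℕ) : ℤ) * b := hgcd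
      rw [← h3]
      norm_num
    rw [h2, zpow_one]
  have h4 : (x ^ ((M : ℤ) * a)) ^ p ^ n = 1 := by
    rw [← zpow_natCast, ← zpow_mul]
    have : (M : ℤ) * a * ((p ^ n : ℕ) : ℤ) = (M : ℤ) * ((p ^ n : ℕ) : ℤ) * a := by ring
    rw [this, zpow_mul, hxz, one_zpow]
  have h5 : (x ^ (((p ^ n : ℕ) : ℤ) * b)) ^ M = 1 := by
    rw [← zpow_natCast, ← zpow_mul]
    have : ((p ^ n : ℕ) : ℤ) * b * (M : ℤ) = (M : ℤ) * ((p ^ n : ℕ) : ℤ) * b := by ring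
    rw [this, zpow_mul, hxz, one_zpow]
  obtain ⟨u, -, hu⟩ := hw.eq_pow_of_pow_eq_one h4
  exact ⟨x ^ (((p ^ n : ℕ) : ℤ) * b), u, h5, by rw [hu]; exact h1⟩

/-- **The general form.** `R` is a ring of algebraic numbers with the dichotomy for the norms. -/
theorem eff_gen {K : Type} [Field K] [NumberField K] [Algebra K Qbar] {p : ℕ} [hp : Fact p.Prime]
    (θ : Qbar →+* ℂ_[p]) {m a : ℕ} (hpm : ¬ p ∣ m) {ζ : 𝓞 K} (hζ : ζ ^ (m * p ^ a) = 1) {k : ℕ}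
    (hak : a ≤ k) {d e : ℕ} (hd : d < p) {r : ℝ} (hr0 : 0 < r) (hr1 : r < 1)
    (R : Subring Qbar) (hRζ : emb K ζ ∈ R)
    (hRx : ∀ (M : ℕ) (x : Qbar), ¬ p ∣ M → x ^ M = 1 → x ∈ R)
    (hR : ∀ a ∈ R, ‖θ a‖ = 1 ∨ ‖θ a‖ ≤ r) {s : ℕ} (S : Fin s → TowerStratum K)
    {ω : 𝓞 (level K p k)} (hω : IsPrimitiveRoot ω (p ^ k))
    (ρ : (Qbar ≃ₐ[level K p k] Qbar) →* Matrix (Fin d) (Fin d) ℂ_[p]) (hρ : Continuous ρ)
    (hbot : LevelTraces θ (m * p ^ a) ζ S k ω ρ) {g : Qbar ≃ₐ[level K p k] Qbar} (hg : FixesRoots p g)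
    (hbig : ∀ μ : Fin (e + 1) → ℂ_[p], (∀ a, SmallRoot (d * m.totient) k (μ a)) →
      ∃ i, r < ‖((ρ g).charpoly %ₘ ∏ a, (X - C (μ a))).coeff i‖) {n : ℕ} (hn : 0 < n)
    (hkn : k ≤ n) (j : ℕ) : ¬ ManyTateClasses p (m * p ^ a) ζ S d j e n := by
  classical
  rintro ⟨ω', hω', ℓ, hℓ, il, V, _, _, π, hfin, hV, hπ, hTate⟩
  have hpp : p.Prime := hp.out
  have hnf : NumberField (level K p n) := level_nf hpp n
  have hnfk : NumberField (level K p k) := level_nf hpp k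
  obtain ⟨Bn, hBn⟩ := tate_eig il hV π (fun F _ _ φ => towerSum (m * p ^ a) ζ (p ^ n) ω' φ S) hπ hTate
  obtain ⟨B₀, hB₀⟩ := hbot
  -- the number `N`
  obtain ⟨N₀, hN₀⟩ : ∃ N₀ : ℕ, ‖(p : ℂ_[p])‖ ^ N₀ < r := exists_pow_lt_of_lt_one hr0 (norm_p_lt p)
  set N : ℕ := n + N₀ + 1 with hN
  have hNpos : 0 < N := by omega
  have hNr : ‖(p : ℂ_[p])‖ ^ N < r := by
    refine lt_of_le_of_lt ?_ hN₀
    exact pow_le_pow_of_le_one (norm_nonneg _) (norm_p_lt p).le (by omega)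
  have hnN : n ≤ N := by omega
  have hkN : k ≤ N := by omega
  -- the Frobenius element
  have hnb := nbhd_mem ρ hρ g N (hg N) (Finset.range (d + 1)) hr0
  obtain ⟨O₂, hO₂sub, hO₂, hcO₂⟩ := mem_nhds_iff.mp hnb
  have hO₃ := block_NB (K := K) hO₂ (g := (g⁻¹).restrictScalars K) (g' := g⁻¹) (fun _ => rfl) hcO₂
  obtain ⟨q, hq, hqB, Q, hQ, hqQ, σ, hσ2, hσ⟩ :=
    fb_dense _ _ hO₃ (B₀ ∪ (Bn ∪ Finset.range (p ^ N + 1)))
  rw [Finset.mem_union, Finset.mem_union, Finset.mem_range, not_or, not_or] at hqB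
  obtain ⟨hqB0, hqB1, hqB2⟩ := hqB
  obtain ⟨σk, hσkO, hσk⟩ := hσ2
  obtain ⟨hσk1, hσk2⟩ := hO₂sub hσkO
  have hqN : p ^ N < q := by omega
  have hqF : Fact q.Prime := ⟨hq⟩
  have hfix : ∀ z : Qbar, z ^ p ^ N = 1 → σ z = z := by
    intro z hz
    rw [← hσk]
    exact hσk2 z hz
  obtain ⟨w, F, iF, iFt, φ, ind, η, hw, hqN1, hF, hall⟩ :=
    frob_all hpp (m := m * p ^ a) (ζ := ζ) hq hqN hQ hqQ hσ hfix
  obtain ⟨σn, hσn, hΘn⟩ := (hall S).2 n hnN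
  obtain ⟨σk', hσk', hΘk⟩ := (hall S).2 k hkN
  have hσkk : σk' = σk := AlgEquiv.ext fun x => by rw [hσk', hσk]
  obtain ⟨α, hα1, M, hM, hα2⟩ := hBn q hq hqB1 Q hQ hqQ σn (by
    intro x y hxy
    rw [hσn] at hxy
    exact hσ x y hxy)
  -- the generating polynomials
  set T : ℕ → Qbar[X] := fun l => theta (emb K) (m * p ^ a) ζ (φ l) (ind l) S with hT
  have hα : ∀ l, 1 ≤ l → ∑ i, α i ^ l = (T l).eval (w n) := by
    intro l hl
    obtain ⟨F', _, _, ψ, hcard, hψ, hval⟩ := hΘn ω' hω' l hl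
    rw [hα1 l hl F' ψ hcard hψ]
    exact hval.symm
  -- the roots of unity
  have hq0 : (q : Qbar) ≠ 0 := by exact_mod_cast hq.ne_zero
  set c : ℚ := ((q : ℚ) ^ j)⁻¹ with hc
  set x : Fin d → Qbar := fun i => (c : Qbar) * α i with hx
  have hc' : (c : Qbar) = ((q : Qbar) ^ j)⁻¹ := by
    rw [hc, Rat.cast_inv, Rat.cast_pow, Rat.cast_natCast]
  have hxM : ∀ i, α i ^ M = ((q : Qbar) ^ M) ^ j → x i ^ M = 1 := by
    intro i hi
    rw [hx]
    simp only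
    rw [mul_pow, hi, hc', inv_pow, ← pow_mul, ← pow_mul, mul_comm j M]
    exact inv_mul_cancel₀ (pow_ne_zero _ hq0)
  have hzm : emb K ζ ^ (m * p ^ a) = 1 := by rw [← map_pow, hζ, map_one]
  have hxL : ∀ L : IntermediateField ℚ Qbar, emb K ζ ∈ L → w n ∈ L → ∀ l, ∑ i, x i ^ l ∈ L := by
    intro L h1 h2 l
    by_cases hl : l = 0
    · subst hl
      simp only [pow_zero]
      rw [Finset.sum_const, nsmul_one]
      exact _root_.natCast_mem L _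
    · have h3 : ∑ i, x i ^ l = (c : Qbar) ^ l * (T l).eval (w n) := by
        rw [← hα l (by omega), Finset.mul_sum]
        apply Finset.sum_congr rfl
        intro i _
        rw [hx, mul_pow]
      rw [h3]
      apply mul_mem
      · apply pow_mem
        exact L.algebraMap_mem c
      · exact theta_mem S (ind l) (emb K) L.toSubring h1 h2 (φ l)
  have hord : ∀ i, x i ^ M = 1 → ∃ (M' : ℕ) (ξ : Qbar) (u : ℕ), 0 < M' ∧ ¬ p ∣ M' ∧
      M'.totient ≤ d * m.totient ∧ ξ ^ M' = 1 ∧ x i = ξ * w n ^ u := by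
    intro i hi
    obtain ⟨M', h1, h2, h3, h4⟩ := block_A' hpp hpm (hak.trans hkn) hn hd hzm (hw n hnN) x hxL hM hi
    obtain ⟨ξ, u, h5, h6⟩ := effc_split hpp h1 h2 (hw n hnN) h4
    exact ⟨M', ξ, u, h1, h2, h3, h5, h6⟩
  obtain ⟨s', hs', hs'c⟩ : ∃ s' ⊆ Finset.univ.filter fun i => α i ^ M = ((q : Qbar) ^ M) ^ j,
      s'.card = e + 1 := Finset.exists_subset_card_eq (by omega)
  have hs'm : ∀ i ∈ s', x i ^ M = 1 := fun i hi => hxM i (Finset.mem_filter.mp (hs' hi)).2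
  let ι : Fin (e + 1) ↪ Fin d := (s'.orderEmbOfFin hs'c).toEmbedding
  have hι : ∀ a, ι a ∈ s' := fun a => s'.orderEmbOfFin_mem hs'c a
  choose M' ξ u hM'0 hM'p hM't hξ hxξ using fun a => hord (ι a) (hs'm _ (hι a))
  -- the values at the level `k`
  have hwk : θ (w k) ^ p ^ k = 1 := by rw [← map_pow, (hw k hkN).pow_eq_one, map_one]
  have hwn : IsPrimitiveRoot (θ (w n)) (p ^ n) := (hw n hnN).map_of_injective θ.injective
  have hsm : ∀ a, SmallRoot (d * m.totient) k (θ (ξ a) * θ (w k) ^ u a) := by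
    intro a
    refine ⟨M' a, hM'0 a, hM'p a, hM't a, ?_⟩
    have h1 : θ (ξ a) ^ M' a = 1 := by rw [← map_pow, hξ a, map_one]
    have h2 : (θ (w k) ^ u a) ^ p ^ k = 1 := by rw [← pow_mul, mul_comm, pow_mul, hwk, one_pow]
    rw [mul_pow, pow_mul, h1, one_pow, one_mul, mul_comm (M' a), pow_mul, h2, one_pow]
  obtain ⟨i₀, hi₀⟩ := hbig _ hsm
  obtain ⟨β, hβ⟩ := eig_family (ρ g)
  have htr : ∀ l, (ρ g ^ l).trace = ∑ i, β i ^ l := by
    intro l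
    rw [tu_mtrace, ← hβ, Multiset.map_map]
    rfl
  have hcp : (ρ g).charpoly = ∏ i, (X - C (β i)) := by
    have h1 := (IsAlgClosed.splits (ρ g).charpoly).eq_prod_roots_of_monic (ρ g).charpoly_monic
    rw [h1, ← hβ, Multiset.map_map]
    rfl
  rw [hcp] at hi₀
  -- the traces
  have hTk1 : ∀ l, 1 ≤ l → ‖θ ((T l).eval (w k))‖ ≤ 1 := by
    intro l hl
    obtain ⟨F', _, _, ψ, hcard, hψ, hval⟩ := hΘk ω hω l hl
    rw [hT]
    simp only
    rw [hval]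
    exact rs_ring (θ.comp (algebraMap (level K p k) Qbar)) (towerSum (m * p ^ a) ζ (p ^ k) ω ψ S)
  have hclose : ∀ l, 1 ≤ l → l ≤ d → ‖θ ((T l).eval (w k)) - ∑ i, β i ^ l‖ < r := by
    intro l hl hld
    obtain ⟨F', _, _, ψ, hcard, hψ, hval⟩ := hΘk ω hω l hl
    have hfr : ∀ x y : 𝓞 Qbar, (y : Qbar) = (σk ^ l) x → y - x ^ Fintype.card F' ∈ Q := by
      rw [hcard]
      refine pl_frob_pow ?_ _
      intro x y hxy
      rw [hσk] at hxy
      exact hσ x y hxy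
    have h2 := hB₀ q hq hqB0 Q hQ hqQ F' ψ hψ (σk ^ l) hfr
    beta_reduce at h2
    rw [hcard, ← inv_pow, map_pow] at h2
    have h3 := close hNpos hqN1 hq.one_le hNr 0 l
      (rs_ring (θ.comp (algebraMap (level K p k) Qbar)) (towerSum (m * p ^ a) ζ (p ^ k) ω ψ S)) h2
      (hσk1 l (by rw [Finset.mem_range]; omega))
    rw [pow_zero, inv_one, one_pow, one_mul, htr] at h3
    rw [hT]
    simp only
    rw [hval]
    exact h3
  have hβ1 : ∀ l, 1 ≤ l → l ≤ d → ‖∑ i, β i ^ l‖ ≤ 1 := by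
    intro l hl hld
    have h1 := hclose l hl hld
    rw [norm_sub_rev] at h1
    exact gr_le_of_close (hTk1 l hl) (h1.trans hr1)
  obtain ⟨s₁, P, hP⟩ := its2_coeff_psum d
  have hunit : ∀ (z : ℂ_[p]) (u' M₁ : ℕ), 0 < M₁ → ∀ y : ℂ_[p], y ^ M₁ = 1 → ‖z‖ = 1 →
      ‖y * z ^ u'‖ ≤ 1 := by
    intro z u' M₁ h1 y h2 h3
    rw [norm_mul, norm_pow, h3, one_pow, mul_one, tu_norm_one h1 h2]
  have hξC : ∀ a, θ (ξ a) ^ M' a = 1 := fun a => by rw [← map_pow, hξ a, map_one]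
  have hwk1 : ‖θ (w k)‖ = 1 := tu_norm_one (pow_pos hpp.pos k) hwk
  have hwn1 : ‖θ (w n)‖ = 1 := tu_norm_one (pow_pos hpp.pos n) hwn.pow_eq_one
  have hLK := block_LK hd (P := P) (s := s₁) hP hr0.le le_rfl β
    (fun j => hβ1 _ (by omega) (by omega)) (fun j : Fin d => θ ((T ((j : ℕ) + 1)).eval (w k)))
    (fun j => hTk1 _ (by omega)) (fun j => (hclose _ (by omega) (by omega)).le)
    (fun a => θ (ξ a) * θ (w k) ^ u a)
    (fun a => hunit _ _ _ (hM'0 a) _ (hξC a) hwk1) i₀ hi₀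
  -- the transfer
  have hlift : ∀ l, ∃ T' : R[X], T'.map R.subtype = T l := fun l =>
    effc_theta (m := m * p ^ a) S (ind l) (emb K) R hRζ (φ l)
  choose TR hTR using hlift
  let ξR : Fin (e + 1) → R := fun a => ⟨ξ a, hRx _ _ (hM'p a) (hξ a)⟩
  have hev : ∀ (z : Qbar) (l : ℕ), (TR l).eval₂ (θ.comp R.subtype) (θ z) = θ ((T l).eval z) := by
    intro z l
    rw [← hTR l, Polynomial.eval_map, Polynomial.hom_eval₂]
  have hlt : ‖θ (w n) - 1‖ < 1 := by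
    obtain ⟨δ, hδ0, hδ1, hδ⟩ := zeta_close p n
    have h1 := hδ _ hwn.pow_eq_one
    rw [norm_sub_rev]
    exact lt_of_le_of_lt h1 hδ1
  have hTR2 := block_TR2 (θ.comp R.subtype) hr0.le (fun a => hR a.1 a.2) hr1
    (fun j : Fin d => TR ((j : ℕ) + 1)) P ξR u (w₀ := θ (w k)) (w := θ (w n))
    (effc_far hkn hwk hwn) hlt i₀ (by
      simp only [hev]
      exact hLK)
  simp only [hev] at hTR2
  -- the level `n`
  obtain ⟨hq1, hqn⟩ := q_norm (p := p) hNpos hqN1 hq.one_le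
  have hq0C : (q : ℂ_[p]) ≠ 0 := by
    intro h0
    rw [h0, norm_zero] at hqn
    exact zero_ne_one hqn
  have hθc : θ (c : Qbar) = ((q : ℂ_[p]) ^ j)⁻¹ := by
    rw [map_ratCast, hc, Rat.cast_inv, Rat.cast_pow, Rat.cast_natCast]
  have hps : ∀ l, 1 ≤ l → θ ((T l).eval (w n)) = ∑ i, θ (α i) ^ l := by
    intro l hl
    rw [← hα l hl, map_sum]
    simp only [map_pow]
  have hps1 : ∀ l, 1 ≤ l → ‖∑ i, θ (α i) ^ l‖ ≤ 1 := by
    intro l hl
    obtain ⟨F', _, _, ψ, hcard, hψ, hval⟩ := hΘn ω' hω' l hl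
    rw [← hps l hl, hT]
    simp only
    rw [hval]
    exact rs_ring (θ.comp (algebraMap (level K p n) Qbar)) (towerSum (m * p ^ a) ζ (p ^ n) ω' ψ S)
  have hα1' : ∀ i, ‖θ (α i)‖ ≤ 1 := block_INT hd (fun i => θ (α i)) fun j => hps1 _ (by omega)
  have hdist : ∀ a, ‖θ (α (ι a)) - θ (ξ a) * θ (w n) ^ u a‖ ≤ r := by
    intro a
    have h1 : θ (ξ a) * θ (w n) ^ u a = ((q : ℂ_[p]) ^ j)⁻¹ * θ (α (ι a)) := by
      rw [← map_pow, ← map_mul, ← hxξ a, hx]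
      simp only
      rw [map_mul, hθc]
    have h2 : θ (α (ι a)) - ((q : ℂ_[p]) ^ j)⁻¹ * θ (α (ι a)) =
        ((q : ℂ_[p]) ^ j - 1) * (((q : ℂ_[p]) ^ j)⁻¹ * θ (α (ι a))) := by
      rw [sub_mul, one_mul, ← mul_assoc, mul_inv_cancel₀ (pow_ne_zero _ hq0C), one_mul]
    rw [h1, h2, norm_mul, norm_mul, norm_inv, norm_pow, hqn, one_pow, inv_one, one_mul]
    have h3 : ‖(q : ℂ_[p]) ^ j - 1‖ ≤ r :=
      (effc_pow_le hqn j).trans (hq1.trans hNr.le)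
    calc ‖(q : ℂ_[p]) ^ j - 1‖ * ‖θ (α (ι a))‖ ≤ r * 1 :=
          mul_le_mul h3 (hα1' _) (norm_nonneg _) hr0.le
      _ = r := mul_one r
  have hLN := block_LN (P := P) (s := s₁) hP hr0.le (fun i => θ (α i)) hα1' ι
    (fun a => θ (ξ a) * θ (w n) ^ u a)
    (fun a => hunit _ _ _ (hM'0 a) _ (hξC a) hwn1) hdist i₀
  have hfun : (fun j : Fin d => θ ((T ((j : ℕ) + 1)).eval (w n))) =
      fun j : Fin d => ∑ i, θ (α i) ^ ((j : ℕ) + 1) := by
    funext j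
    exact hps _ (by omega)
  rw [hfun] at hTR2
  exact absurd hTR2 (not_lt.mpr hLN)

end Pool.Agent.EFF
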