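import Pool.Agent.Lib_helper16.KP.Defs
import Pool.Agent.Lib_helper58.KT.Frob

/-!
# The traces at one level of a tower of Kummer coverings
-/

set_option autoImplicit false

namespace Pool.Agent.EFF

open NumberField Pool.Agent.TT Pool.Agent.KT

/-- The traces of `ρ` at the Frobenius elements are the images under `θ` of the sums `T_k(F)` of the
level `k`, modulo `|F| - 1`. -/
def LevelTraces {K : Type} [Field K] [Algebra K Qbar] {p : ℕ} [Fact p.Prime] (θ : Qbar →+* ℂ_[p])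
    (m : ℕ) (ζ : 𝓞 K) {s : ℕ} (S : Fin s → TowerStratum K) {d : ℕ} (k : ℕ) (ω : 𝓞 (level K p k))
    (ρ : (Qbar ≃ₐ[level K p k] Qbar) →* Matrix (Fin d) (Fin d) ℂ_[p]) : Prop :=
  AtFrobenius fun σ F _ _ φ =>
    ‖(ρ σ⁻¹).trace - θ (algebraMap (level K p k) Qbar
      (towerSum m ζ (p ^ k) ω φ S : 𝓞 (level K p k)))‖ ≤ ‖(Fintype.card F : ℂ_[p]) - 1‖

/-- The roots of unity of an order that divides `M * p ^ k`, where `M` is prime to `p` and
`φ(M) ≤ D`. -/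
def SmallRoot {p : ℕ} [Fact p.Prime] (D k : ℕ) (μ : ℂ_[p]) : Prop :=
  ∃ M : ℕ, 0 < M ∧ ¬ p ∣ M ∧ M.totient ≤ D ∧ μ ^ (M * p ^ k) = 1

end Pool.Agent.EFF
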