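import Pool.Agent.Lib_helper19.EFF.Val

/-!
# One element at one level decides all higher levels and all `ℓ`
-/

set_option autoImplicit false

namespace Pool.Agent.EFF

open NumberField Topology Polynomial
open Pool.Agent.TT Pool.Agent.TB Pool.Agent.TF Pool.Agent.RF Pool.Agent.TU Pool.Agent.KT
open Pool.Agent.KP

/-- **One element at one level decides all higher levels and all `ℓ`.** -/
theorem eff_tate {K : Type} [Field K] [NumberField K] [Algebra K Qbar] {p : ℕ} [hp : Fact p.Prime]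
    (θ : Qbar →+* ℂ_[p]) {m c : ℕ} (hpm : ¬ p ∣ m) {ζ : 𝓞 K} (hζ : IsPrimitiveRoot ζ (m * p ^ c))
    {k : ℕ} (hk : 0 < k) (hck : c ≤ k) {d e : ℕ} (hd : d < p) {s : ℕ}
    (S : Fin s → TowerStratum K) {ω : 𝓞 (level K p k)} (hω : IsPrimitiveRoot ω (p ^ k))
    (ρ : (Qbar ≃ₐ[level K p k] Qbar) →* Matrix (Fin d) (Fin d) ℂ_[p]) (hρ : Continuous ρ)
    (hbot : LevelTraces θ (m * p ^ c) ζ S k ω ρ) {g : Qbar ≃ₐ[level K p k] Qbar}
    (hg : FixesRoots p g)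
    (hbig : ∀ μ : Fin (e + 1) → ℂ_[p], (∀ a, SmallRoot (d * m.totient) k (μ a)) →
      ∃ i, ‖(p : ℂ_[p])‖ < ‖((ρ g).charpoly %ₘ ∏ a, (X - C (μ a))).coeff i‖ ^ (p ^ c).totient) :
    ∀ n, k ≤ n → ∀ j, ¬ ManyTateClasses p (m * p ^ c) ζ S d j e n := by
  intro n hkn j
  obtain ⟨r, R, hr0, hr1, hrφ, hRx, hR⟩ := effv_ring θ c
  refine eff_gen θ hpm hζ.pow_eq_one hck hd hr0 hr1 R ?_ ?_ hR S hω ρ hρ hbot hg ?_
    (lt_of_lt_of_le hk hkn) hkn j
  · apply hRx m _ hpm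
    rw [← map_pow, hζ.pow_eq_one, map_one]
  · intro M x hM hx
    apply hRx M x hM
    rw [pow_mul, hx, one_pow]
  · intro μ hμ
    obtain ⟨i, hi⟩ := hbig μ hμ
    refine ⟨i, lt_of_pow_lt_pow_left₀ (p ^ c).totient (norm_nonneg _) ?_⟩
    rw [hrφ]
    exact hi

end Pool.Agent.EFF
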