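import Pool.Agent.Lib_helper58.KT.Defs
import Pool.Agent.Lib_helper61.TB.NP
import Pool.Agent.Lib_helper61.TU.Newt

/-!
# Neighborhoods in the Galois group of a level, and the eigenvalues of a matrix
-/

set_option autoImplicit false

namespace Pool.Agent.EFF

open NumberField Topology Pool.Agent.TT Pool.Agent.TB Pool.Agent.TF Pool.Agent.TU Pool.Agent.KT

theorem effn_fin {K : Type} [Field K] [Algebra K Qbar] {p : ℕ} [hp : Fact p.Prime] (n : ℕ) :
    FiniteDimensional K (level K p n) := by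
  have hpn : 0 < p ^ n := pow_pos hp.out.pos n
  have hfin : ({z : Qbar | z ^ p ^ n = 1}).Finite := by
    refine ((Polynomial.nthRootsFinset (p ^ n) (1 : Qbar)).finite_toSet).subset ?_
    intro z hz
    exact (Polynomial.mem_nthRootsFinset hpn 1).2 hz
  have : Finite ({z : Qbar | z ^ p ^ n = 1} : Set Qbar) := hfin
  refine IntermediateField.finiteDimensional_adjoin ?_
  intro z hz
  refine IsIntegral.of_pow hpn ?_
  have hz' : z ^ p ^ n = 1 := hz
  rw [hz']
  exact isIntegral_one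

theorem effn_nhds {K : Type} [Field K] [NumberField K] [Algebra K Qbar] {p : ℕ} [hp : Fact p.Prime]
    {n : ℕ} {O : Set (Qbar ≃ₐ[level K p n] Qbar)} (hO : IsOpen O) {g : Qbar ≃ₐ[K] Qbar}
    {g' : Qbar ≃ₐ[level K p n] Qbar} (hgg : ∀ x, g' x = g x) (hg : g' ∈ O) :
    {h : Qbar ≃ₐ[K] Qbar | ∃ h' ∈ O, ∀ x, h' x = h x} ∈ 𝓝 g := by
  have h1 : (fun u : Qbar ≃ₐ[level K p n] Qbar => g' * u) ⁻¹' O ∈ 𝓝 (1 : Qbar ≃ₐ[level K p n] Qbar) := by
    refine (continuous_const_mul g').continuousAt.preimage_mem_nhds ?_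
    rw [mul_one]
    exact hO.mem_nhds hg
  obtain ⟨E, hE, hEO⟩ := (krullTopology_mem_nhds_one_iff _ _ _).1 h1
  have h2 : (fun u : Qbar ≃ₐ[K] Qbar => g * u) ⁻¹'
      {h : Qbar ≃ₐ[K] Qbar | ∃ h' ∈ O, ∀ x, h' x = h x} ∈ 𝓝 (1 : Qbar ≃ₐ[K] Qbar) := by
    refine (krullTopology_mem_nhds_one_iff _ _ _).2 ⟨E.restrictScalars K, ?_, ?_⟩
    · have := effn_fin (K := K) (p := p) n
      exact FiniteDimensional.trans K (level K p n) E
    · intro u hu
      have hu' : ∀ x : Qbar, x ∈ E → u x = x := by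
        intro x hx
        exact (IntermediateField.mem_fixingSubgroup_iff _ _).1 hu x hx
      have hlev : ∀ x : level K p n, u (algebraMap (level K p n) Qbar x) =
          algebraMap (level K p n) Qbar x := fun x => hu' _ (E.algebraMap_mem x)
      let u' : Qbar ≃ₐ[level K p n] Qbar := AlgEquiv.ofRingEquiv (f := u.toRingEquiv) hlev
      have hu'E : u' ∈ (E.fixingSubgroup : Set (Qbar ≃ₐ[level K p n] Qbar)) := by
        refine (IntermediateField.mem_fixingSubgroup_iff _ _).2 ?_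
        intro x hx
        exact hu' x hx
      refine ⟨g' * u', hEO hu'E, ?_⟩
      intro x
      show g' (u x) = g (u x)
      exact hgg _
  have h3 := (continuous_const_mul g⁻¹).continuousAt.preimage_mem_nhds (x := g)
    (t := (fun u : Qbar ≃ₐ[K] Qbar => g * u) ⁻¹'
      {h : Qbar ≃ₐ[K] Qbar | ∃ h' ∈ O, ∀ x, h' x = h x}) (by rw [inv_mul_cancel]; exact h2)
  refine Filter.mem_of_superset h3 ?_
  intro h hh
  have hh' : g * (g⁻¹ * h) ∈ {h : Qbar ≃ₐ[K] Qbar | ∃ h' ∈ O, ∀ x, h' x = h x} := hh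
  rwa [mul_inv_cancel_left] at hh'

theorem effn_family {C : Type} [Field C] [IsAlgClosed C] {d : ℕ} (A : Matrix (Fin d) (Fin d) C) :
    ∃ β : Fin d → C, Finset.univ.val.map β = A.charpoly.roots := by
  obtain ⟨d₁, y, hy⟩ := np_family A.charpoly.roots
  have hd₁ : d₁ = d := by
    have h1 := congrArg Multiset.card hy
    rw [Multiset.card_map, Finset.card_val, Finset.card_univ, Fintype.card_fin,
      ← (IsAlgClosed.splits A.charpoly).natDegree_eq_card_roots,
      Matrix.charpoly_natDegree_eq_dim, Fintype.card_fin] at h1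
    exact h1
  subst hd₁
  exact ⟨y, hy⟩

theorem effn_trace {C : Type} [Field C] [IsAlgClosed C] {d : ℕ} (A : Matrix (Fin d) (Fin d) C)
    {β : Fin d → C} (hβ : Finset.univ.val.map β = A.charpoly.roots) (r : ℕ) :
    (A ^ r).trace = ∑ i, β i ^ r := by
  have h1 := tu_trace (Matrix.toLin' A) r
  have h2 : Matrix.toLin' A ^ r = Matrix.toLin' (A ^ r) := by
    rw [← Matrix.toLin'_pow]
  rw [h2, Matrix.trace_toLin'_eq, Matrix.charpoly_toLin', ← hβ, Multiset.map_map] at h1
  rw [h1]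
  rfl

end Pool.Agent.EFF
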