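import Pool.Agent.Lib_helper19.EFF.Core
import Pool.Agent.Lib_helper62.EFF.RA

/-!
# The norms of the elements of the rings that are generated by roots of unity
-/

set_option autoImplicit false

namespace Pool.Agent.EFF

open NumberField Topology Polynomial
open Pool.Agent.TT Pool.Agent.TB Pool.Agent.TF Pool.Agent.RF Pool.Agent.TBL Pool.Agent.TU
open Pool.Agent.KT Pool.Agent.KP Pool.Agent.IT

theorem effv_p_pos (p : ℕ) [hp : Fact p.Prime] : 0 < ‖(p : ℂ_[p])‖ := by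
  rw [norm_pos_iff]
  exact_mod_cast hp.out.ne_zero

/-- The distance from `1` of a primitive root of unity of order `p ^ (b + 1)`. -/
theorem effv_prim {p : ℕ} [hp : Fact p.Prime] {b : ℕ} {z : ℂ_[p]}
    (hz : IsPrimitiveRoot z (p ^ (b + 1))) : ‖z - 1‖ ^ (p ^ (b + 1)).totient = ‖(p : ℂ_[p])‖ := by
  have hpn : 0 < p ^ (b + 1) := pow_pos hp.out.pos _
  have hne : NeZero (p ^ (b + 1)) := ⟨hpn.ne'⟩
  have hzn : ‖z‖ = 1 := tu_norm_one hpn hz.pow_eq_one
  have h1 := Polynomial.eval_one_cyclotomic_prime_pow (R := ℂ_[p]) (p := p) b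
  rw [Polynomial.cyclotomic_eq_prod_X_sub_primitiveRoots hz, Polynomial.eval_prod] at h1
  have h2 := congrArg norm h1
  rw [norm_prod] at h2
  rw [← h2, ← hz.card_primitiveRoots]
  symm
  apply Finset.prod_eq_pow_card
  intro μ hμ
  rw [mem_primitiveRoots hpn] at hμ
  rw [Polynomial.eval_sub, Polynomial.eval_X, Polynomial.eval_C, norm_sub_rev]
  have hμn : ‖μ‖ = 1 := tu_norm_one hpn hμ.pow_eq_one
  obtain ⟨i, -, hi⟩ := hz.eq_pow_of_pow_eq_one hμ.pow_eq_one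
  obtain ⟨i', -, hi'⟩ := hμ.eq_pow_of_pow_eq_one hz.pow_eq_one
  apply le_antisymm
  · rw [← hi]
    exact effc_pow_le hzn i
  · have h3 := effc_pow_le hμn i'
    rw [hi'] at h3
    exact h3

theorem effv_root {p : ℕ} [hp : Fact p.Prime] {c : ℕ} {z : ℂ_[p]} (hz : z ^ p ^ c = 1) :
    ‖z - 1‖ ^ (p ^ c).totient ≤ ‖(p : ℂ_[p])‖ := by
  have hpp := hp.out
  have hpn : 0 < p ^ c := pow_pos hpp.pos _
  have hzn : ‖z‖ = 1 := tu_norm_one hpn hz
  have h0 : orderOf z ∣ p ^ c := orderOf_dvd_of_pow_eq_one hz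
  obtain ⟨b, hb, hb'⟩ := (Nat.dvd_prime_pow hpp).mp h0
  rcases b with _ | b
  · rw [pow_zero, orderOf_eq_one_iff] at hb'
    rw [hb', sub_self, norm_zero, zero_pow (Nat.totient_pos.mpr hpn).ne']
    exact norm_nonneg _
  · have h1 : IsPrimitiveRoot z (p ^ (b + 1)) := by
      rw [← hb']
      exact IsPrimitiveRoot.orderOf z
    rw [← effv_prim h1]
    apply pow_le_pow_of_le_one (norm_nonneg _)
    · have h2 : z - 1 ∈ nv ℂ_[p] := by
        have h3 : z ∈ nv ℂ_[p] := hzn.le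
        exact sub_mem h3 (one_mem _)
      exact h2
    · exact Nat.le_of_dvd (Nat.totient_pos.mpr hpn) (Nat.totient_dvd_of_dvd (pow_dvd_pow p hb))

/-- **The dichotomy for the ring that is generated by the roots of unity** of order dividing
`M * p ^ c`, `M` prime to `p`. -/
theorem effv_ring {p : ℕ} [hp : Fact p.Prime] (θ : Qbar →+* ℂ_[p]) (c : ℕ) :
    ∃ (r : ℝ) (R : Subring Qbar), 0 < r ∧ r < 1 ∧ r ^ (p ^ c).totient = ‖(p : ℂ_[p])‖ ∧
      (∀ (M : ℕ) (x : Qbar), ¬ p ∣ M → x ^ (M * p ^ c) = 1 → x ∈ R) ∧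
      ∀ a ∈ R, ‖θ a‖ = 1 ∨ ‖θ a‖ ≤ r := by
  have hpp := hp.out
  have hpn : 0 < p ^ c := pow_pos hpp.pos _
  have hφ : 0 < (p ^ c).totient := Nat.totient_pos.mpr hpn
  have hp0 := effv_p_pos p
  have hp1 : ‖(p : ℂ_[p])‖ < 1 := norm_p_lt p
  set r : ℝ := ‖(p : ℂ_[p])‖ ^ (((p ^ c).totient : ℝ)⁻¹) with hr
  have hr0 : 0 < r := Real.rpow_pos_of_pos hp0 _
  have hrφ : r ^ (p ^ c).totient = ‖(p : ℂ_[p])‖ := Real.rpow_inv_natCast_pow hp0.le hφ.ne'
  have hr1 : r < 1 := by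
    by_contra hcon
    push Not at hcon
    have h1 := one_le_pow₀ hcon (n := (p ^ c).totient)
    rw [hrφ] at h1
    exact absurd hp1 (not_lt.mpr h1)
  have hpr : ‖(p : ℂ_[p])‖ ≤ r := by
    rw [← hrφ]
    exact pow_le_of_le_one hr0.le hr1.le hφ.ne'
  refine ⟨r, (good p ℂ_[p] hpp hpr).comap θ, hr0, hr1, hrφ, ?_, fun a ha => good_dich hpp hpr ha⟩
  intro M x hM hx
  have hM0 : 0 < M := Nat.pos_of_ne_zero fun h => hM (by rw [h]; exact dvd_zero p)
  obtain ⟨w, hw⟩ := exists_prim hpn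
  obtain ⟨ξ, u, h1, h2⟩ := effc_split hpp hM0 hM hw hx
  rw [Subring.mem_comap, h2, map_mul]
  apply mul_mem
  · exact good_root hpp hpr hM (by rw [← map_pow, h1, map_one])
  · have hy : θ (w ^ u) ^ p ^ c = 1 := by
      rw [← map_pow, ← pow_mul, mul_comm, pow_mul, hw.pow_eq_one, one_pow, map_one]
    refine ⟨(tu_norm_one hpn hy).le, c + 1, Nat.succ_pos c, fun t => ?_⟩
    rcases t with _ | t
    · rw [mul_zero, pow_zero, pow_one, sub_self, norm_zero]
      exact hr0.le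
    · have h3 : θ (w ^ u) ^ p ^ ((c + 1) * (t + 1)) = 1 := by
        have h4 : p ^ c ∣ p ^ ((c + 1) * (t + 1)) := pow_dvd_pow p (by nlinarith)
        obtain ⟨b, hb⟩ := h4
        rw [hb, pow_mul, hy, one_pow]
      rw [h3, norm_sub_rev]
      have h5 := effv_root hy
      rw [← hrφ] at h5
      exact le_of_pow_le_pow_left₀ hφ.ne' hr0.le h5

end Pool.Agent.EFF
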